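import Pool.Agent.helper58.CRO.SpecA

/-!
# MP_5bf3c3_gt, row cro:SMP : Hamiltonian flows are symplectic
-/

open scoped Manifold ContDiff Topology ENNReal
open MeasureTheory Set

noncomputable section

namespace Pool.Agent.CRO

theorem SMP (h1 : HES_stmt) : SMP_stmt := by
  intro n H Φ hH hΦ t z v w
  have hd : ∀ s, HasDerivAt
      (fun s => symp (fderiv ℝ (Φ s) z v) (fderiv ℝ (Φ s) z w)) 0 s := by
    intro s
    have hY := hΦ.var z s
    have hv : HasDerivAt (fun s => fderiv ℝ (Φ s) z v)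
        (fderiv ℝ (hvf H) (Φ s z) (fderiv ℝ (Φ s) z v)) s :=
      hY.clm_apply (hasDerivAt_const s v) |>.congr_deriv (by simp)
    have hw : HasDerivAt (fun s => fderiv ℝ (Φ s) z w)
        (fderiv ℝ (hvf H) (Φ s z) (fderiv ℝ (Φ s) z w)) s :=
      hY.clm_apply (hasDerivAt_const s w) |>.congr_deriv (by simp)
    have hv1 := (hasFDerivAt_fst (𝕜 := ℝ) (p := fderiv ℝ (Φ s) z v)).comp_hasDerivAt s hv
    have hv2 := (hasFDerivAt_snd (𝕜 := ℝ) (p := fderiv ℝ (Φ s) z v)).comp_hasDerivAt s hv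
    have hw1 := (hasFDerivAt_fst (𝕜 := ℝ) (p := fderiv ℝ (Φ s) z w)).comp_hasDerivAt s hw
    have hw2 := (hasFDerivAt_snd (𝕜 := ℝ) (p := fderiv ℝ (Φ s) z w)).comp_hasDerivAt s hw
    have h2 := (hv1.inner ℝ hw2).sub (hv2.inner ℝ hw1)
    refine h2.congr_deriv ?_
    have h3 := h1 n H hH (Φ s z) (fderiv ℝ (Φ s) z v) (fderiv ℝ (Φ s) z w)
    unfold symp at h3
    simp only [ContinuousLinearMap.coe_fst', ContinuousLinearMap.coe_snd', Function.comp]
    linarith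
  have h2 : symp (fderiv ℝ (Φ t) z v) (fderiv ℝ (Φ t) z w) =
      symp (fderiv ℝ (Φ 0) z v) (fderiv ℝ (Φ 0) z w) :=
    is_const_of_deriv_eq_zero (fun s => (hd s).differentiableAt) (fun s => (hd s).deriv) t 0
  have h3 : Φ 0 = id := funext hΦ.zero
  rw [h2, h3, fderiv_id]
  rfl

end Pool.Agent.CRO

end
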