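import Pool.Agent.helper58.CRO.SpecF

/-!
# MP_5bf3c3_gt, row cro:RIC : a Riccati comparison
-/

open scoped Manifold ContDiff Topology ENNReal
open MeasureTheory Set Bundle Filter

noncomputable section

namespace Pool.Agent.CRO

theorem RIC_log : Real.log 11 < 12 / 5 := by
  rw [Real.log_lt_iff_lt_exp (by norm_num)]
  have h1 : (11 : ℝ) ^ 5 < Real.exp (12 / 5) ^ 5 := by
    rw [← Real.exp_nat_mul]
    have h2 : ((5 : ℕ) : ℝ) * (12 / 5) = ((12 : ℕ) : ℝ) * 1 := by norm_num
    rw [h2, Real.exp_nat_mul]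
    have h3 : (2.718 : ℝ) < Real.exp 1 := lt_trans (by norm_num) Real.exp_one_gt_d9
    calc (11 : ℝ) ^ 5 < 2.718 ^ 12 := by norm_num
      _ ≤ Real.exp 1 ^ 12 := pow_le_pow_left₀ (by norm_num) h3.le 12
  exact lt_of_pow_lt_pow_left₀ 5 (Real.exp_pos _).le h1

/-- the main step, with the interval cut off at `x0` -/
theorem RIC_step (P : ℝ → ℝ) (h B β x0 : ℝ) (hh : 0 < h) (hB : 0 < B)
    (hc : ContinuousOn P (Ioc 0 (2 * h))) (ha : AntitoneOn P (Ioc 0 (2 * h)))
    (hint : ∀ c, 0 < c → c ≤ h → ∫ x in c..(c + h), P x ^ 2 ≤ B * P c)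
    (hβ : β = P (2 * h)) (hβ0 : 0 < β) (hβB : B < β * h) (hx0 : 0 < x0) (hx0h : x0 < h) :
    (h - x0) / B ≤ 1 / (2 * β) * (Real.log (β ^ 2 * h / B + β) - Real.log (β ^ 2 * h / B - β)) := by
  set p : ℝ → ℝ := fun t => P (max x0 (min (2 * h) t)) with hp
  have hmem : ∀ t, max x0 (min (2 * h) t) ∈ Ioc 0 (2 * h) := by
    intro t
    refine ⟨lt_of_lt_of_le hx0 (le_max_left _ _), ?_⟩
    apply max_le (by linarith) (min_le_left _ _)
  have hpc : Continuous p := hc.comp_continuous (by fun_prop) hmem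
  have hpP : ∀ t, x0 ≤ t → t ≤ 2 * h → p t = P t := by
    intro t h1 h2
    rw [hp]
    show P (max x0 (min (2 * h) t)) = P t
    rw [min_eq_right h2, max_eq_right h1]
  have hpβ : ∀ t, β ≤ p t := by
    intro t
    rw [hβ]
    exact ha (hmem t) ⟨by linarith, le_rfl⟩ (hmem t).2
  have hp2 : ∀ t, β ^ 2 ≤ p t ^ 2 := fun t => pow_le_pow_left₀ hβ0.le (hpβ t) 2
  have hpc2 : Continuous (fun t => p t ^ 2) := hpc.pow 2
  have hii : ∀ a b, IntervalIntegrable (fun t => p t ^ 2) volume a b :=
    fun a b => hpc2.intervalIntegrable a b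
  set I : ℝ → ℝ := fun t => ∫ s in h..t, p s ^ 2 with hI
  set u : ℝ → ℝ := fun t => (β ^ 2 * t - I t) / B with hu
  have hId : ∀ t, HasDerivAt I (p t ^ 2) t := fun t =>
    intervalIntegral.integral_hasDerivAt_right (hii h t)
      (hpc2.stronglyMeasurableAtFilter _ _) hpc2.continuousAt
  have hud : ∀ t, HasDerivAt u ((β ^ 2 - p t ^ 2) / B) t := by
    intro t
    have h1 := (((hasDerivAt_id t).const_mul (β ^ 2)).sub (hId t)).div_const B
    rw [mul_one] at h1
    exact h1
  -- bounds of u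
  have hlow : ∀ t, t ≤ h → β ^ 2 * h / B ≤ u t := by
    intro t ht
    have h1 : (h - t) * β ^ 2 ≤ ∫ s in t..h, p s ^ 2 := by
      have h2 := intervalIntegral.integral_mono_on ht
        (intervalIntegrable_const (c := β ^ 2)) (hii t h) (fun s _ => hp2 s)
      rwa [intervalIntegral.integral_const, smul_eq_mul] at h2
    have h3 : I t = -∫ s in t..h, p s ^ 2 := intervalIntegral.integral_symm _ _
    show β ^ 2 * h / B ≤ (β ^ 2 * t - I t) / B
    rw [h3]
    apply div_le_div_of_nonneg_right _ hB.le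
    linarith
  have hupp : ∀ t, x0 ≤ t → t ≤ h → u t ≤ p t := by
    intro t h1 h2
    have h3 := hint t (by linarith) h2
    have h4 : ∫ x in t..(t + h), P x ^ 2 = ∫ x in t..(t + h), p x ^ 2 := by
      apply intervalIntegral.integral_congr
      intro x hx
      rw [uIcc_of_le (by linarith)] at hx
      show P x ^ 2 = p x ^ 2
      rw [hpP x (by linarith [hx.1]) (by linarith [hx.2])]
    have h5 : ∫ x in t..(t + h), p x ^ 2 =
        (∫ x in t..h, p x ^ 2) + ∫ x in h..(t + h), p x ^ 2 :=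
      (intervalIntegral.integral_add_adjacent_intervals (hii t h) (hii h (t + h))).symm
    have h6 : (t + h - h) * β ^ 2 ≤ ∫ s in h..(t + h), p s ^ 2 := by
      have h7 := intervalIntegral.integral_mono_on (show h ≤ t + h by linarith)
        (intervalIntegrable_const (c := β ^ 2)) (hii h (t + h)) (fun s _ => hp2 s)
      rwa [intervalIntegral.integral_const, smul_eq_mul] at h7
    have h8 : I t = -∫ s in t..h, p s ^ 2 := intervalIntegral.integral_symm _ _
    show (β ^ 2 * t - I t) / B ≤ p t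
    rw [div_le_iff₀ hB, h8, hpP t h1 (by linarith)]
    rw [h4, h5] at h3
    linarith
  have hβu : β < β ^ 2 * h / B := by
    rw [lt_div_iff₀ hB]
    nlinarith
  set H : ℝ → ℝ := fun t => 1 / (2 * β) * (Real.log (u t + β) - Real.log (u t - β)) with hH
  have hHd : ∀ t, t ≤ h → HasDerivAt H (1 / (2 * β) * ((β ^ 2 - p t ^ 2) / B / (u t + β) -
      (β ^ 2 - p t ^ 2) / B / (u t - β))) t := by
    intro t ht
    have h1 := hlow t ht
    have h2 : 0 < u t + β := by linarith
    have h3 : 0 < u t - β := by linarith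
    exact (((((hud t).add_const β).log h2.ne').sub (((hud t).sub_const β).log h3.ne')).const_mul
      (1 / (2 * β)))
  have hge : ∀ t, x0 ≤ t → t ≤ h → 1 / B ≤ 1 / (2 * β) * ((β ^ 2 - p t ^ 2) / B / (u t + β) -
      (β ^ 2 - p t ^ 2) / B / (u t - β)) := by
    intro t h1 h2
    have h3 := hlow t h2
    have h4 := hupp t h1 h2
    have h5 : 0 < u t + β := by linarith
    have h6 : 0 < u t - β := by linarith
    have h7 : 1 / (2 * β) * ((β ^ 2 - p t ^ 2) / B / (u t + β) -
      (β ^ 2 - p t ^ 2) / B / (u t - β)) =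
        1 / B * ((p t ^ 2 - β ^ 2) / ((u t + β) * (u t - β))) := by
      field_simp
      ring
    rw [h7]
    have h8 : 1 ≤ (p t ^ 2 - β ^ 2) / ((u t + β) * (u t - β)) := by
      rw [le_div_iff₀ (mul_pos h5 h6), one_mul]
      have h9 : u t ^ 2 ≤ p t ^ 2 := pow_le_pow_left₀ (by linarith) h4 2
      nlinarith
    have h10 : 0 < 1 / B := by positivity
    nlinarith
  have hmain : 1 / B * (h - x0) ≤ H h - H x0 := by
    apply Convex.mul_sub_le_image_sub_of_le_deriv (convex_Icc x0 h)
    · intro t ht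
      exact (hHd t ht.2).continuousAt.continuousWithinAt
    · intro t ht
      rw [interior_Icc] at ht
      exact (hHd t ht.2.le).differentiableAt.differentiableWithinAt
    · intro t ht
      rw [interior_Icc] at ht
      rw [(hHd t ht.2.le).deriv]
      exact hge t ht.1.le ht.2.le
    · exact ⟨le_rfl, hx0h.le⟩
    · exact ⟨hx0h.le, le_rfl⟩
    · exact hx0h.le
  have hHx : 0 ≤ H x0 := by
    have h1 := hlow x0 hx0h.le
    show 0 ≤ 1 / (2 * β) * (Real.log (u x0 + β) - Real.log (u x0 - β))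
    apply mul_nonneg (by positivity)
    have h2 := Real.log_le_log (show 0 < u x0 - β by linarith)
      (show u x0 - β ≤ u x0 + β by linarith)
    linarith
  have huh : u h = β ^ 2 * h / B := by
    show (β ^ 2 * h - ∫ s in h..h, p s ^ 2) / B = β ^ 2 * h / B
    rw [intervalIntegral.integral_same, sub_zero]
  have hHh : H h = 1 / (2 * β) * (Real.log (β ^ 2 * h / B + β) -
      Real.log (β ^ 2 * h / B - β)) := by
    show 1 / (2 * β) * (Real.log (u h + β) - Real.log (u h - β)) = _
    rw [huh]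
  rw [← hHh]
  have h1 : (h - x0) / B = 1 / B * (h - x0) := by ring
  rw [h1]
  linarith

theorem RIC : RIC_stmt := by
  intro P r B hr hB hc ha hpos hint
  obtain ⟨h, rfl⟩ : ∃ h, r = 2 * h := ⟨r / 2, by ring⟩
  have hh : 0 < h := by linarith
  have e1 : 2 * h / 2 = h := by ring
  rw [e1] at hint
  by_contra hcon
  push Not at hcon
  obtain ⟨β, hβ⟩ : ∃ β, β = P (2 * h) := ⟨_, rfl⟩
  rw [← hβ] at hcon
  have hβ0 : 0 < β := by
    rw [hβ]
    exact hpos _ ⟨by linarith, le_rfl⟩
  have hb : 12 * B < β * (5 * (2 * h)) := by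
    rwa [div_lt_iff₀ (by linarith)] at hcon
  have hβB : B < β * h := by nlinarith
  set Hh := 1 / (2 * β) * (Real.log (β ^ 2 * h / B + β) - Real.log (β ^ 2 * h / B - β)) with hHh
  have hstep : ∀ x0, 0 < x0 → x0 < h → (h - x0) / B ≤ Hh := fun x0 h1 h2 =>
    RIC_step P h B β x0 hh hB hc ha hint hβ hβ0 hβB h1 h2
  have hHh0 : 0 ≤ Hh := by
    have h1 := hstep (h / 2) (by linarith) (by linarith)
    have h2 : 0 ≤ (h - h / 2) / B := div_nonneg (by linarith) hB.le
    linarith
  have hHhB : h / B ≤ Hh := by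
    by_contra h1
    push Not at h1
    rw [lt_div_iff₀ hB] at h1
    have h2 := hstep ((h - Hh * B) / 2) (by linarith) (by
      have : 0 ≤ Hh * B := mul_nonneg hHh0 hB.le
      linarith)
    rw [div_le_iff₀ hB] at h2
    linarith
  -- the value of `Hh`
  obtain ⟨b, hbd⟩ : ∃ b, b = β * h / B := ⟨_, rfl⟩
  have hb1 : 6 / 5 < b := by
    rw [hbd, lt_div_iff₀ hB]
    linarith
  have e2 : β ^ 2 * h / B + β = β * (b + 1) := by
    rw [hbd]
    field_simp
  have e3 : β ^ 2 * h / B - β = β * (b - 1) := by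
    rw [hbd]
    field_simp
  have h1 : Real.log (β * (b + 1)) - Real.log (β * (b - 1)) < 12 / 5 := by
    rw [← Real.log_div (mul_pos hβ0 (by linarith)).ne' (mul_pos hβ0 (by linarith)).ne']
    have h2 : β * (b + 1) / (β * (b - 1)) = (b + 1) / (b - 1) := by
      rw [mul_div_mul_left _ _ hβ0.ne']
    rw [h2]
    have h3 : (b + 1) / (b - 1) ≤ 11 := by
      rw [div_le_iff₀ (by linarith)]
      linarith
    have h4 : 0 < (b + 1) / (b - 1) := div_pos (by linarith) (by linarith)
    exact lt_of_le_of_lt (Real.log_le_log h4 h3) RIC_log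
  rw [e2, e3] at hHh
  have h2 : h / B * (2 * β) ≤ Real.log (β * (b + 1)) - Real.log (β * (b - 1)) := by
    have h3 := mul_le_mul_of_nonneg_right hHhB (show 0 ≤ 2 * β by linarith)
    rw [hHh] at h3
    have h4 : 1 / (2 * β) * (Real.log (β * (b + 1)) - Real.log (β * (b - 1))) * (2 * β) =
        Real.log (β * (b + 1)) - Real.log (β * (b - 1)) := by
      field_simp
    rwa [h4] at h3
  have h3 : h / B * (2 * β) = 2 * b := by
    rw [hbd]
    ring
  rw [h3] at h2
  linarith

end Pool.Agent.CRO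

end
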